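import Mathlib
import Pool.Agent.H26.NRSMatrix

set_option autoImplicit false

open Polynomial

namespace Pool.Agent.Results.MP_44891f_nt.NRSFinite

/-- the matrix `H_Ω^v(m,n)` of the Hessenberg type `⟨a11, a21 | a12, a22, a32⟩`, with
`v = (a13, a23, a33)` -/
def H (a11 a21 a12 a22 a32 a13 a23 a33 m n : ℤ) : Matrix (Fin 3) (Fin 3) ℤ :=
  !![a11, a12, a11 * m + a12 * n + a13;
     a21, a22, a21 * m + a22 * n + a23;
     0, a32, a32 * n + a33]

/-- NRS-matrices: elements of `SL(3, ℤ)` with characteristic polynomial irreducible over `ℚ` and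
with one real root and a pair of non-real complex conjugate roots -/
def IsNRS (A : Matrix (Fin 3) (Fin 3) ℤ) : Prop :=
  A.det = 1 ∧ Irreducible (A.charpoly.map (Int.castRingHom ℚ)) ∧
    ∃ (α : ℝ) (z : ℂ), z.im ≠ 0 ∧ A.charpoly.map (Int.castRingHom ℂ) =
      (X - C (α : ℂ)) * (X - C z) * (X - C (starRingEnd ℂ z))

/-- Hessenberg-shaped elements of `SL(3, ℤ)` -/
def HessShaped (M : Matrix (Fin 3) (Fin 3) ℤ) : Prop :=
  M.det = 1 ∧ M 2 0 = 0 ∧ M 1 0 * M 2 1 ≠ 0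

/-- Hessenberg complexity -/
def sig (M : Matrix (Fin 3) (Fin 3) ℤ) : ℤ := |M 1 0 ^ 2 * M 2 1|

/-- `M` is Hessenberg-shaped and `sig M ≤ sig M'` for every Hessenberg-shaped `M'` conjugate to `M`
by an element of `GL(3, ℤ)` -/
def IsReduced (M : Matrix (Fin 3) (Fin 3) ℤ) : Prop :=
  HessShaped M ∧ ∀ M' : Matrix (Fin 3) (Fin 3) ℤ, HessShaped M' →
    (∃ P : GL (Fin 3) ℤ, M' = (P : Matrix (Fin 3) (Fin 3) ℤ) * M *
      ((P⁻¹ : GL (Fin 3) ℤ) : Matrix (Fin 3) (Fin 3) ℤ)) → sig M ≤ sig M'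

open Pool.Agent.H26.NRS Matrix

def e1 : Fin 3 → ℤ := ![1, 0, 0]

theorem F_e1 (M : Matrix (Fin 3) (Fin 3) ℤ) (h : M 2 0 = 0) : F M e1 = M 1 0 ^ 2 * M 2 1 := by
  unfold F e1
  rw [det_fin_three]
  simp [Matrix.mulVec, dotProduct, Fin.sum_univ_three, h, -mulVec_mulVec]
  ring

theorem he1 : ∀ (k : ℤ) (x : Fin 3 → ℤ) (a : ℤ), k • x = a • e1 → k ∣ a := by
  intro k x a h
  have := congrFun h 0
  simp [e1] at this
  exact ⟨x 0, this.symm⟩

theorem real_relations (A : Matrix (Fin 3) (Fin 3) ℤ) (hA : A.det = 1) (α : ℝ) (z : ℂ)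
    (h : A.charpoly.map (Int.castRingHom ℂ) =
      (X - C (α : ℂ)) * (X - C z) * (X - C (starRingEnd ℂ z))) :
    α * (z.re ^ 2 + z.im ^ 2) = 1 ∧ (T1 A : ℝ) = α + 2 * z.re ∧
      (S2 A : ℝ) = 2 * z.re * α + (z.re ^ 2 + z.im ^ 2) := by
  have hev : ∀ n : ℤ, (n ^ 3 - T1 A * n ^ 2 + S2 A * n - 1 : ℝ) =
      (n - α) * (n ^ 2 - 2 * n * z.re + (z.re ^ 2 + z.im ^ 2)) := by
    intro n
    have h1 : A.charpoly.eval n = n ^ 3 - T1 A * n ^ 2 + S2 A * n - 1 := by
      rw [Matrix.eval_charpoly]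
      have hA' := hA
      have e : ∀ i j, (scalar (Fin 3) n - A) i j = (if i = j then n else 0) - A i j := by
        intro i j
        rw [Matrix.sub_apply, Matrix.scalar_apply, Matrix.diagonal_apply]
      rw [det_fin_three] at hA' ⊢
      simp only [e, T1, S2, Fin.isValue, Fin.reduceEq, if_true, if_false]
      linear_combination -hA'
    have h2 : ((A.charpoly.map (Int.castRingHom ℂ)).eval (n : ℂ)) = ((A.charpoly.eval n : ℤ) : ℂ) := by
      have := Polynomial.eval_intCast_map (Int.castRingHom ℂ) A.charpoly n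
      simpa using this
    rw [h, h1] at h2
    simp only [eval_mul, eval_sub, eval_X, eval_C] at h2
    have h3 : ((n : ℂ) - z) * ((n : ℂ) - (starRingEnd ℂ) z) =
        (((n : ℝ) ^ 2 - 2 * n * z.re + (z.re ^ 2 + z.im ^ 2) : ℝ) : ℂ) := by
      apply Complex.ext
      · simp [sq]; ring
      · simp [sq]; ring
    rw [mul_assoc, h3] at h2
    have h4 : (((n : ℝ) - α) * ((n : ℝ) ^ 2 - 2 * n * z.re + (z.re ^ 2 + z.im ^ 2)) : ℝ) =
        ((n ^ 3 - T1 A * n ^ 2 + S2 A * n - 1 : ℤ) : ℝ) := by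
      have : (((((n : ℝ) - α) * ((n : ℝ) ^ 2 - 2 * n * z.re + (z.re ^ 2 + z.im ^ 2)) : ℝ)) : ℂ) =
          ((((n ^ 3 - T1 A * n ^ 2 + S2 A * n - 1 : ℤ) : ℝ)) : ℂ) := by
        push_cast at h2 ⊢
        exact h2
      exact_mod_cast this
    rw [h4]; push_cast; ring
  have k0 := hev 0
  have k1 := hev 1
  have k2 := hev (-1)
  push_cast at k0 k1 k2
  have r0 : α * (z.re ^ 2 + z.im ^ 2) = 1 := by linear_combination k0
  refine ⟨r0, ?_, ?_⟩
  · linear_combination (-1/2) * k1 - (1/2) * k2 + r0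
  · linear_combination (1/2) * k1 - (1/2) * k2

theorem sig_ge (A M' : Matrix (Fin 3) (Fin 3) ℤ) (hA : HessShaped A) (hM' : HessShaped M')
    (P : GL (Fin 3) ℤ) (hP : M' = (P : Matrix (Fin 3) (Fin 3) ℤ) * A *
      ((P⁻¹ : GL (Fin 3) ℤ) : Matrix (Fin 3) (Fin 3) ℤ))
    (hbound : ∀ x, F A x ≠ 0 → |F A e1| ≤ |F A x|) : sig A ≤ sig M' := by
  set Pm : Matrix (Fin 3) (Fin 3) ℤ := (P : Matrix (Fin 3) (Fin 3) ℤ) with hPm
  set Pi : Matrix (Fin 3) (Fin 3) ℤ := ((P⁻¹ : GL (Fin 3) ℤ) : Matrix (Fin 3) (Fin 3) ℤ) with hPi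
  have h1 : Pi * Pm = 1 := by
    rw [hPi, hPm, ← Units.val_mul, inv_mul_cancel, Units.val_one]
  have h2 : Pm * Pi = 1 := by
    rw [hPi, hPm, ← Units.val_mul, mul_inv_cancel, Units.val_one]
  have hdet : |Pm.det| = 1 := by
    have := congrArg Matrix.det h2
    rw [det_mul, det_one] at this
    exact Int.isUnit_iff_abs_eq.mp (IsUnit.of_mul_eq_one _ this)
  have hF : F M' e1 = F A (Pi *ᵥ e1) * Pm.det := by
    unfold F
    rw [← det_transpose Pm, ← det_mul, rows_mul]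
    have e2 : Pm *ᵥ (Pi *ᵥ e1) = e1 := by rw [mulVec_mulVec, h2, one_mulVec]
    have e3 : ∀ y : Fin 3 → ℤ, M' *ᵥ (Pm *ᵥ y) = Pm *ᵥ (A *ᵥ y) := by
      intro y
      rw [hP, mulVec_mulVec, Matrix.mul_assoc, h1, Matrix.mul_one, mulVec_mulVec]
    rw [e2, ← e3, e2, ← e3, ← e3, e2]
  have hA0 : sig A = |F A e1| := by unfold sig; rw [F_e1 A hA.2.1]
  have hM0 : sig M' = |F M' e1| := by unfold sig; rw [F_e1 M' hM'.2.1]
  have hne : F M' e1 ≠ 0 := by
    rw [F_e1 M' hM'.2.1]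
    have := hM'.2.2
    intro h
    apply this
    rcases mul_eq_zero.mp h with h | h
    · rw [pow_eq_zero_iff (by norm_num)] at h; rw [h, zero_mul]
    · rw [h, mul_zero]
  rw [hA0, hM0, hF, abs_mul, hdet, mul_one]
  apply hbound
  intro h
  rw [hF, h, zero_mul] at hne
  exact hne rfl

/-- For every Hessenberg type `Ω`, all but finitely many matrices in `NRS(Ω)` are reduced. -/
theorem result : ∀ a11 a21 a12 a22 a32 a13 a23 a33 : ℤ, 1 ≤ a21 → 1 ≤ a32 →
    Matrix.det !![a11, a12, a13; a21, a22, a23; 0, a32, a33] = 1 →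
    {A : Matrix (Fin 3) (Fin 3) ℤ |
      (∃ m n : ℤ, A = H a11 a21 a12 a22 a32 a13 a23 a33 m n) ∧ IsNRS A ∧ ¬ IsReduced A}.Finite := by
  intro a11 a21 a12 a22 a32 a13 a23 a33 h21 h32 hdet
  set d : ℤ := a21 ^ 2 * a32 with hd
  have hd1 : 1 ≤ d := by
    rw [hd]; nlinarith [sq_nonneg a21, mul_pos (show (0:ℤ) < a21 ^ 2 by positivity) (show (0:ℤ) < a32 by linarith)]
  set R0 : ℝ := (100 * (d : ℝ) ^ 4) ^ 2 with hR0
  have hR0pos : 1 ≤ R0 := by
    have : (1 : ℝ) ≤ d := by exact_mod_cast hd1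
    have h4 : (1 : ℝ) ≤ (d : ℝ) ^ 4 := one_le_pow₀ this
    rw [hR0]; nlinarith
  obtain ⟨B, hB⟩ : ∃ B : ℤ, R0 + 2 * R0 + 2 * R0 * R0 ≤ B := exists_int_ge _
  -- finite set of parameters
  let φ : ℤ × ℤ → ℤ × ℤ := fun x =>
    (T1 (H a11 a21 a12 a22 a32 a13 a23 a33 x.1 x.2), S2 (H a11 a21 a12 a22 a32 a13 a23 a33 x.1 x.2))
  have hφ : Function.Injective φ := by
    rintro ⟨m, n⟩ ⟨m', n'⟩ h
    simp only [φ, Prod.mk.injEq, T1, S2, H] at h
    simp at h
    obtain ⟨h1, h2⟩ := h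
    have h3 : n = n' := by
      rcases h1 with h1 | h1
      · exact h1
      · omega
    subst h3
    have h4 : a32 * (a21 * (m - m')) = 0 := by linear_combination -h2
    have h5 : m - m' = 0 := by
      rcases mul_eq_zero.mp h4 with h | h
      · omega
      · rcases mul_eq_zero.mp h with h | h
        · omega
        · exact h
    have : m = m' := by omega
    rw [this]
  have hfin : (φ ⁻¹' ((Set.Icc (-B) B) ×ˢ (Set.Icc (-B) B))).Finite :=
    Set.Finite.preimage hφ.injOn ((Set.finite_Icc _ _).prod (Set.finite_Icc _ _))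
  apply (hfin.image (fun x => H a11 a21 a12 a22 a32 a13 a23 a33 x.1 x.2)).subset
  rintro A ⟨⟨m, n, hmn⟩, ⟨hAdet, -, α, z, hz, hchar⟩, hnred⟩
  refine ⟨(m, n), ?_, hmn.symm⟩
  obtain ⟨k0, kT, kS⟩ := real_relations A hAdet α z hchar
  have hA20 : A 2 0 = 0 := by rw [hmn]; rfl
  have hA10 : A 1 0 = a21 := by rw [hmn]; rfl
  have hA21 : A 2 1 = a32 := by rw [hmn]; rfl
  have hHA : HessShaped A := by
    refine ⟨hAdet, hA20, ?_⟩
    rw [hA10, hA21]
    exact (mul_pos (by linarith) (by linarith)).ne'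
  have hFd : F A e1 = d := by rw [F_e1 A hA20, hA10, hA21]
  have hFabs : |F A e1| = d := by rw [hFd, abs_of_pos (by linarith)]
  have hF0 : F A e1 ≠ 0 := by rw [hFd]; linarith
  have hR : 0 < z.re ^ 2 + z.im ^ 2 := by positivity
  have hα : 0 < α := by
    by_contra hc
    have := mul_nonpos_of_nonpos_of_nonneg (not_lt.mp hc) hR.le
    linarith
  -- large complex place impossible
  have c1 : z.re ^ 2 + z.im ^ 2 < R0 := by
    by_contra hc
    apply hnred
    refine ⟨hHA, fun M' hM' ⟨P, hP⟩ => sig_ge A M' hHA hM' P hP ?_⟩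
    intro x hx
    apply thmB A hAdet e1 he1 hF0 α z.re z.im hz k0 kT kS _ x hx
    rw [hFabs]; exact not_lt.mp hc
  have c2 : α < R0 := by
    by_contra hc
    apply hnred
    refine ⟨hHA, fun M' hM' ⟨P, hP⟩ => sig_ge A M' hHA hM' P hP ?_⟩
    intro x hx
    have hadj : A.adjugate.det = 1 := by
      have h1 : A * A.adjugate = 1 := by rw [mul_adjugate, hAdet, one_smul]
      have := congrArg Matrix.det h1
      rw [det_mul, hAdet, one_mul, det_one] at this
      exact this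
    have hF' : |F A.adjugate e1| = d := by rw [F_adj A hAdet, abs_neg, hFabs]
    have hb := thmB A.adjugate hadj e1 he1 (by rw [F_adj A hAdet]; exact neg_ne_zero.mpr hF0)
      (z.re ^ 2 + z.im ^ 2) (z.re * α) (z.im * α) (mul_ne_zero hz hα.ne')
      (by linear_combination (α * (z.re ^ 2 + z.im ^ 2) + 1) * k0)
      (by rw [T1_adj, kS]; ring)
      (by rw [S2_adj A hAdet, kT]; linear_combination (-(2 * z.re) - α) * k0)
      (by
        rw [hF']
        have e : (z.re * α) ^ 2 + (z.im * α) ^ 2 = α * (α * (z.re ^ 2 + z.im ^ 2)) := by ring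
        rw [e, k0, mul_one]; exact not_lt.mp hc)
      x (by rw [F_adj A hAdet]; exact neg_ne_zero.mpr hx)
    rw [F_adj A hAdet, F_adj A hAdet, abs_neg, abs_neg] at hb
    exact hb
  -- bounded trace and minors
  have hre : |z.re| ≤ R0 := by
    apply abs_le_of_sq_le_sq _ (by linarith)
    have : R0 ≤ R0 ^ 2 := by nlinarith
    nlinarith [sq_nonneg z.im]
  have hTb : |(T1 A : ℝ)| ≤ B := by
    rw [kT]
    calc |α + 2 * z.re| ≤ |α| + |2 * z.re| := abs_add_le _ _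
      _ ≤ R0 + 2 * R0 := by
        rw [abs_of_pos hα, abs_mul, abs_of_pos (by norm_num : (0:ℝ) < 2)]
        linarith
      _ ≤ B := by
        have : 0 ≤ 2 * R0 * R0 := by positivity
        linarith
  have hSb : |(S2 A : ℝ)| ≤ B := by
    rw [kS]
    have h1 : |z.re| * α ≤ R0 * R0 := mul_le_mul hre c2.le hα.le (by linarith)
    calc |2 * z.re * α + (z.re ^ 2 + z.im ^ 2)| ≤ |2 * z.re * α| + |z.re ^ 2 + z.im ^ 2| := abs_add_le _ _
      _ = 2 * (|z.re| * α) + (z.re ^ 2 + z.im ^ 2) := by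
        rw [abs_mul, abs_mul, abs_of_pos hα, abs_of_pos (by norm_num : (0:ℝ) < 2), abs_of_pos hR]
        ring
      _ ≤ B := by linarith
  have hT' : |T1 A| ≤ B := by exact_mod_cast hTb
  have hS' : |S2 A| ≤ B := by exact_mod_cast hSb
  rw [Set.mem_preimage]
  simp only [φ]
  rw [← hmn]
  exact ⟨abs_le.mp hT', abs_le.mp hS'⟩

end Pool.Agent.Results.MP_44891f_nt.NRSFinite
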